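import Pool.Agent.MP_6bb8b9_an.H83.Step

set_option autoImplicit false

open MeasureTheory Set Filter Topology
open scoped ENNReal NNReal
open Pool.Agent.MP_6bb8b9_an.H2

namespace Pool.Agent.MP_6bb8b9_an.H83

variable {n : ℕ} {𝕜 : Type} [RCLike 𝕜]

/-- Local sparse domination with finite depth. -/
lemma local_dom (hn : 0 < n) {K : Euc n → Euc n → 𝕜} {c δ : ℝ} (hK : KB K c δ)
    (hM : SpecMWeak n) (hI : SpecInt K) (hC : SpecCompare K) (hW : SpecWeak11 K) :
    ∃ C0 : ℝ≥0, ∀ g : Euc n → 𝕜, LocallyIntegrable g volume → ∀ (a : Euc n) (L : ℝ), 0 < L →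
      ∀ (N : ℕ), ∃ S : (Fin n → ZMod 3) → Finset (Euc n × ℝ),
        (∀ c, Sparse (1 / (2 * 3 ^ n)) (S c)) ∧
        ∀ x ∈ dcube a L 0 0, ∀ ε : ℝ, 2 * (Real.sqrt n * (L / 2 ^ N)) ≤ ε →
          ‖Tr K ((tcube a L 0 0).indicator g) x ε‖ₑ ≤
            C0 * ∑ c, sparseOp (S c) (fun y => ‖g y‖ₑ) x := by
  classical
  obtain ⟨C0, hC0⟩ := one_step hn hK hM hI hC hW
  refine ⟨C0, fun g hg a L hL N => ?_⟩
  choose ch hch1 hch2 hch3 hch4 using hC0 g hg a L hL N
  let F : ℕ × (Fin n → ℤ) → Set (Euc n) := fun P =>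
    dcube a L P.1 P.2 \ ⋃ R ∈ ch P, dcube a L R.1 R.2
  let w : ℕ × (Fin n → ℤ) → Euc n → ℝ≥0∞ := fun Q x => (dcube a L Q.1 Q.2).indicator
    (fun _ => avg (fun y => ‖g y‖ₑ) (tcorner a L Q.1 Q.2) (3 * (L / 2 ^ Q.1))) x
  have main : ∀ d : ℕ, ∀ P : ℕ × (Fin n → ℤ), P.1 ≤ N → N - P.1 < d →
      ∃ 𝓕 : Finset (ℕ × (Fin n → ℤ)),
        (∀ Q ∈ 𝓕, P.1 ≤ Q.1 ∧ dcube a L Q.1 Q.2 ⊆ dcube a L P.1 P.2) ∧
        (𝓕 : Set (ℕ × (Fin n → ℤ))).PairwiseDisjoint F ∧
        ∀ x ∈ dcube a L P.1 P.2, ∀ ε : ℝ, 2 * (Real.sqrt n * (L / 2 ^ N)) ≤ ε →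
          ‖Tr K ((tcube a L P.1 P.2).indicator g) x ε‖ₑ ≤ C0 * ∑ Q ∈ 𝓕, w Q x := by
    intro d
    induction d with
    | zero => intro P _ h; omega
    | succ d ih =>
      intro P hP hd
      have ih' : ∀ R : ℕ × (Fin n → ℤ), ∃ 𝓕 : Finset (ℕ × (Fin n → ℤ)), R ∈ ch P →
          (∀ Q ∈ 𝓕, R.1 ≤ Q.1 ∧ dcube a L Q.1 Q.2 ⊆ dcube a L R.1 R.2) ∧
          (𝓕 : Set (ℕ × (Fin n → ℤ))).PairwiseDisjoint F ∧
          ∀ x ∈ dcube a L R.1 R.2, ∀ ε : ℝ, 2 * (Real.sqrt n * (L / 2 ^ N)) ≤ ε →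
            ‖Tr K ((tcube a L R.1 R.2).indicator g) x ε‖ₑ ≤ C0 * ∑ Q ∈ 𝓕, w Q x := by
        intro R
        by_cases hR : R ∈ ch P
        · have := hch1 P R hR
          obtain ⟨𝓕, h⟩ := ih R this.2.1 (by omega)
          exact ⟨𝓕, fun _ => h⟩
        · exact ⟨∅, fun h => absurd h hR⟩
      choose G hG using ih'
      have hnot : P ∉ (ch P).biUnion G := by
        intro h
        obtain ⟨R, hR, hPR⟩ := Finset.mem_biUnion.1 h
        have h1 := ((hG R hR).1 P hPR).1
        have h2 := (hch1 P R hR).1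
        omega
      have hPF : ∀ Q ∈ (ch P).biUnion G, Disjoint (F P) (F Q) := by
        intro Q hQ
        obtain ⟨R, hR, hQR⟩ := Finset.mem_biUnion.1 hQ
        rw [Set.disjoint_left]
        intro y hy hy'
        exact hy.2 (mem_iUnion₂.2 ⟨R, hR, ((hG R hR).1 Q hQR).2 hy'.1⟩)
      refine ⟨insert P ((ch P).biUnion G), ?_, ?_, ?_⟩
      · intro Q hQ
        rcases Finset.mem_insert.1 hQ with rfl | hQ
        · exact ⟨le_rfl, subset_rfl⟩
        · obtain ⟨R, hR, hQR⟩ := Finset.mem_biUnion.1 hQ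
          exact ⟨(hch1 P R hR).1.le.trans ((hG R hR).1 Q hQR).1,
            ((hG R hR).1 Q hQR).2.trans (hch1 P R hR).2.2⟩
      · rw [Finset.coe_insert]
        refine PairwiseDisjoint.insert ?_ fun Q hQ _ => hPF Q hQ
        intro Q hQ Q' hQ' hne
        obtain ⟨R, hR, hQR⟩ := Finset.mem_biUnion.1 hQ
        obtain ⟨R', hR', hQR'⟩ := Finset.mem_biUnion.1 hQ'
        by_cases hRR : R = R'
        · subst hRR
          exact (hG R hR).2.1 hQR hQR' hne
        · exact (hch2 P hR hR' hRR).mono (sdiff_subset.trans ((hG R hR).1 Q hQR).2)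
            (sdiff_subset.trans ((hG R' hR').1 Q' hQR').2)
      · intro x hx ε hε
        rw [Finset.sum_insert hnot, mul_add]
        have hw : w P x = avg (fun y => ‖g y‖ₑ) (tcorner a L P.1 P.2) (3 * (L / 2 ^ P.1)) :=
          indicator_of_mem hx _
        rw [hw]
        rcases hch4 P hP x hx ε hε with h | ⟨R, hR, hxR, h⟩
        · exact h.trans le_self_add
        · refine h.trans (add_le_add_right (((hG R hR).2.2 x hxR ε hε).trans ?_) _)
          gcongr
          exact Finset.subset_biUnion_of_mem G hR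
  obtain ⟨𝓕, -, h2, h3⟩ := main (N + 1) (0, 0) (Nat.zero_le _) (by simp)
  obtain ⟨S, hS1, hS2⟩ := three_lattices hn a hL 𝓕 F (fun Q _ =>
    ⟨(measurableSet_dcube _ _ _ _).diff
      (Finset.measurableSet_biUnion _ fun R _ => measurableSet_dcube _ _ _ _),
      sdiff_subset, hch3 Q⟩) h2 (fun y => ‖g y‖ₑ)
  exact ⟨S, hS1, fun x hx ε hε => (h3 x hx ε hε).trans (mul_le_mul_right (hS2 x) _)⟩

/-- The exhausting chain of cubes. -/
noncomputable def big (n : ℕ) (i : ℕ) : Euc n × ℝ :=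
  (WithLp.toLp 2 fun _ => -(2 : ℝ) ^ i, 2 * 2 ^ i)

lemma mem_big {i : ℕ} {x : Euc n} :
    x ∈ cube (big n i).1 (big n i).2 ↔ ∀ k, -(2 : ℝ) ^ i ≤ x k ∧ x k < 2 ^ i := by
  refine forall_congr' fun k => ?_
  show -(2 : ℝ) ^ i ≤ x k ∧ x k < -(2 : ℝ) ^ i + 2 * 2 ^ i ↔ _
  rw [show -(2 : ℝ) ^ i + 2 * 2 ^ i = 2 ^ i by ring]

lemma big_mono {i j : ℕ} (h : i ≤ j) :
    cube (big n i).1 (big n i).2 ⊆ cube (big n j).1 (big n j).2 := by
  intro x hx
  rw [mem_big] at hx ⊢
  have : (2 : ℝ) ^ i ≤ 2 ^ j := pow_le_pow_right₀ (by norm_num) h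
  intro k
  constructor <;> linarith [(hx k).1, (hx k).2]

lemma big_ssubset (hn : 0 < n) {i j : ℕ} (h : i < j) :
    cube (big n i).1 (big n i).2 ⊂ cube (big n j).1 (big n j).2 := by
  refine ⟨big_mono h.le, fun hsub => ?_⟩
  have h1 := (mem_big.1 (hsub (self_mem_cube _ (by simp [big]))) ⟨0, hn⟩).1
  have h2 : (2 : ℝ) ^ i < 2 ^ j := pow_lt_pow_right₀ (by norm_num) h
  have h3 : (big n j).1 ⟨0, hn⟩ = -(2 : ℝ) ^ j := rfl
  linarith

lemma big_injective : Function.Injective (big n) := by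
  intro i j h
  have h1 : (2 : ℝ) * 2 ^ i = 2 * 2 ^ j := congrArg Prod.snd h
  exact pow_right_injective₀ (a := (2 : ℝ)) (by norm_num) (by norm_num) (by simpa using h1)

lemma eventually_mem_big (x : Euc n) : ∀ᶠ i in atTop, x ∈ cube (big n i).1 (big n i).2 := by
  have := (tendsto_pow_atTop_atTop_of_one_lt (one_lt_two (α := ℝ))).eventually_gt_atTop ‖x‖
  filter_upwards [this] with i hi
  rw [mem_big]
  intro k
  have := abs_lt.1 ((abs_coord_le_norm x k).trans_lt hi)
  exact ⟨this.1.le, this.2⟩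

lemma volume_big (i : ℕ) :
    volume (cube (big n i).1 (big n i).2) = ENNReal.ofReal ((2 * 2 ^ i) ^ n) :=
  volume_cube _ (by simp [big])

lemma sparse_chain (hn : 0 < n) (j : ℕ) :
    Sparse (1 / (2 * 3 ^ n)) ((Finset.range j).image (big n)) := by
  classical
  have hinv := Function.leftInverse_invFun (big_injective (n := n))
  let F : ℕ → Set (Euc n) := fun i => cube (big n i).1 (big n i).2 \
    ⋃ k ∈ Finset.range i, cube (big n k).1 (big n k).2
  refine ⟨⟨?_, ?_⟩, fun R => F (Function.invFun (big n) R), ?_, ?_⟩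
  · intro R hR
    obtain ⟨i, -, rfl⟩ := Finset.mem_image.1 hR
    simp [big]
  · intro R hR R' hR' hne
    obtain ⟨i, -, rfl⟩ := Finset.mem_image.1 hR
    obtain ⟨i', -, rfl⟩ := Finset.mem_image.1 hR'
    rcases lt_trichotomy i i' with h | h | h
    · exact Or.inr (Or.inl (big_ssubset hn h))
    · exact absurd (by rw [h]) hne
    · exact Or.inr (Or.inr (big_ssubset hn h))
  · intro R hR
    obtain ⟨i, -, rfl⟩ := Finset.mem_image.1 hR
    simp only [hinv i]
    refine ⟨(measurableSet_cube _ _).diff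
      (Finset.measurableSet_biUnion _ fun R _ => measurableSet_cube _ _), sdiff_subset, ?_⟩
    have h3 : (1 : ℝ) ≤ 3 ^ n := one_le_pow₀ (by norm_num)
    have h2 : (2 : ℝ) ≤ 2 ^ n := by
      simpa using pow_le_pow_right₀ (one_le_two (α := ℝ)) hn
    have h1 : volume (⋃ k ∈ Finset.range i, cube (big n k).1 (big n k).2) ≤
        ENNReal.ofReal ((2 * 2 ^ i) ^ n / 2) := by
      rcases i with _ | i
      · simp
      · have hsub : (⋃ k ∈ Finset.range (i + 1), cube (big n k).1 (big n k).2) ⊆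
            cube (big n i).1 (big n i).2 := iUnion₂_subset fun k hk =>
          big_mono (Nat.lt_succ_iff.1 (Finset.mem_range.1 hk))
        refine (measure_mono hsub).trans ?_
        rw [volume_big, pow_succ (2 : ℝ) i, mul_comm ((2 : ℝ) ^ i) 2, mul_pow (2 : ℝ) (2 * 2 ^ i)]
        refine ENNReal.ofReal_le_ofReal ?_
        have : (0 : ℝ) ≤ (2 * 2 ^ i) ^ n := by positivity
        nlinarith
    refine le_trans ?_ le_measure_sdiff
    refine le_trans ?_ (tsub_le_tsub_left h1 _)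
    rw [volume_big, ← ENNReal.ofReal_mul (by positivity), ← ENNReal.ofReal_sub _ (by positivity)]
    refine ENNReal.ofReal_le_ofReal ?_
    have h4 : (0 : ℝ) ≤ (2 * 2 ^ i) ^ n := by positivity
    have h5 : 1 / (2 * 3 ^ n) ≤ (1 : ℝ) / 2 := by gcongr; linarith
    nlinarith
  · have key : ∀ i i', i < i' → Disjoint (F i) (F i') := by
      intro i i' h
      rw [Set.disjoint_left]
      intro y hy hy'
      exact hy'.2 (mem_iUnion₂.2 ⟨i, Finset.mem_range.2 h, hy.1⟩)
    intro R hR R' hR' hne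
    obtain ⟨i, -, rfl⟩ := Finset.mem_image.1 hR
    obtain ⟨i', -, rfl⟩ := Finset.mem_image.1 hR'
    simp only [Function.onFun, hinv i, hinv i']
    rcases lt_trichotomy i i' with h | h | h
    · exact key _ _ h
    · exact absurd (by rw [h]) hne
    · exact (key _ _ h).symm

/-- If the chain sum converges then the truncated integrals converge absolutely. -/
lemma integrableOn_of_chain {K : Euc n → Euc n → 𝕜} {c δ : ℝ} (hK : KB K c δ) (hI : SpecInt K)
    {g : Euc n → 𝕜} (hg : LocallyIntegrable g volume) (x : Euc n) {ε : ℝ} (hε : 0 < ε)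
    (hfin : ∑' i, (cube (big n i).1 (big n i).2).indicator
      (fun _ => avg (fun y => ‖g y‖ₑ) (big n i).1 (big n i).2) x ≠ ∞) :
    IntegrableOn (fun y => K x y * g y) {y | ε < ‖y - x‖} volume := by
  classical
  refine ⟨((hI.1 x).mul hg.aestronglyMeasurable).restrict, ?_⟩
  obtain ⟨i0, hi0⟩ := (eventually_mem_big x).exists
  let M : ℝ := max (c * (ε ^ n)⁻¹ * (2 * 2 ^ (i0 + 1)) ^ n) (c * 8 ^ n)
  have hc := hK.c_nonneg
  have hM : 0 ≤ M := le_max_of_le_right (by positivity)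
  have hKb : ∀ y, ∀ r : ℝ, 0 < r → r ≤ ‖x - y‖ → ‖K x y‖ ≤ c * (r ^ n)⁻¹ := by
    intro y r hr h1
    have hne : x ≠ y := by
      rintro rfl
      simp at h1
      linarith
    refine (hK.size x y hne).trans (mul_le_mul_of_nonneg_left ?_ hc)
    rw [Real.rpow_neg (norm_nonneg _), Real.rpow_natCast]
    exact inv_anti₀ (by positivity) (pow_le_pow_left₀ hr.le h1 n)
  have hpt : ∀ y ∈ {y | ε < ‖y - x‖}, ‖K x y * g y‖ₑ ≤ ∑' i, (cube (big n (i0 + 1 + i)).1
      (big n (i0 + 1 + i)).2).indicator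
        (fun y => ENNReal.ofReal (M / (2 * 2 ^ (i0 + 1 + i)) ^ n) * ‖g y‖ₑ) y := by
    intro y hy
    have hex : ∃ i, y ∈ cube (big n (i0 + 1 + i)).1 (big n (i0 + 1 + i)).2 := by
      obtain ⟨i, hi⟩ := (eventually_mem_big y).exists
      exact ⟨i, big_mono (by omega) hi⟩
    have h1 := Nat.find_spec hex
    refine le_trans ?_ (ENNReal.le_tsum (Nat.find hex))
    rw [indicator_of_mem h1, enorm_mul, ← ofReal_norm (K x y)]
    gcongr
    rw [le_div_iff₀ (by positivity)]
    rcases hf : Nat.find hex with _ | i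
    · refine le_max_of_le_left ?_
      have := hKb y ε hε (by rw [norm_sub_rev]; exact le_of_lt hy)
      rw [add_zero]
      gcongr
    · refine le_max_of_le_right ?_
      have h2 := Nat.find_min hex (m := i) (by omega)
      have h3 : (2 : ℝ) ^ (i0 + i) ≤ ‖x - y‖ := by
        by_contra hlt
        refine h2 (mem_big.2 fun k => ?_)
        have h4 := abs_lt.1 ((abs_coord_le_norm (x - y) k).trans_lt (not_le.1 hlt))
        rw [PiLp.sub_apply] at h4
        have h5 := mem_big.1 hi0 k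
        have h6 : (2 : ℝ) ^ i0 ≤ 2 ^ (i0 + i) := pow_le_pow_right₀ (by norm_num) (by omega)
        have h7 : (2 : ℝ) ^ (i0 + 1 + i) = 2 * 2 ^ (i0 + i) := by ring
        constructor <;> linarith [h4.1, h4.2, h5.1, h5.2]
      have h4 := hKb y _ (by positivity) h3
      have h5 : ((2 : ℝ) * 2 ^ (i0 + 1 + (i + 1))) ^ n = 8 ^ n * (2 ^ (i0 + i)) ^ n := by
        rw [← mul_pow]
        congr 1
        ring
      rw [h5]
      calc ‖K x y‖ * (8 ^ n * (2 ^ (i0 + i)) ^ n)
          ≤ c * ((2 ^ (i0 + i)) ^ n)⁻¹ * (8 ^ n * (2 ^ (i0 + i)) ^ n) := by gcongr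
        _ = c * 8 ^ n := by field_simp
  have hgm : AEMeasurable (fun y => ‖g y‖ₑ) volume := hg.aestronglyMeasurable.enorm
  refine lt_of_le_of_lt (setLIntegral_mono' (measurableSet_trunc x ε) hpt) ?_
  refine lt_of_le_of_lt (setLIntegral_le_lintegral _ _) ?_
  rw [lintegral_tsum fun i => (hgm.const_mul _).indicator (measurableSet_cube _ _)]
  have h6 : ∀ i, ∫⁻ y, (cube (big n (i0 + 1 + i)).1 (big n (i0 + 1 + i)).2).indicator
      (fun y => ENNReal.ofReal (M / (2 * 2 ^ (i0 + 1 + i)) ^ n) * ‖g y‖ₑ) y =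
      ENNReal.ofReal M * (cube (big n (i0 + 1 + i)).1 (big n (i0 + 1 + i)).2).indicator
      (fun _ => avg (fun y => ‖g y‖ₑ) (big n (i0 + 1 + i)).1 (big n (i0 + 1 + i)).2) x := by
    intro i
    rw [lintegral_indicator (measurableSet_cube _ _),
      lintegral_const_mul' _ _ ENNReal.ofReal_ne_top,
      indicator_of_mem (big_mono (by omega) hi0), avg, volume_big,
      ENNReal.ofReal_div_of_pos (by positivity), div_eq_mul_inv, div_eq_mul_inv]
    ring
  simp_rw [h6]
  rw [ENNReal.tsum_mul_left]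
  refine ENNReal.mul_lt_top ENNReal.ofReal_lt_top (lt_of_le_of_lt ?_ hfin.lt_top)
  exact ENNReal.tsum_comp_le_tsum_of_injective (add_right_injective (i0 + 1)) _

/-- Item D: pointwise sparse domination of the maximal singular integral. -/
theorem itemD (hn : 0 < n) {K : Euc n → Euc n → 𝕜} {c δ : ℝ} (hK : KB K c δ) (hM : SpecMWeak n)
    (hI : SpecInt K) (hC : SpecCompare K) (hW : SpecWeak11 K) : SpecDom K := by
  classical
  obtain ⟨C0, hC0⟩ := local_dom hn hK hM hI hC hW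
  let e := Fintype.equivFin (Option (Fin n → ZMod 3))
  refine ⟨C0 + 1, 1 / (2 * 3 ^ n), Fintype.card (Option (Fin n → ZMod 3)), by positivity,
    fun g hg => ?_⟩
  have hN : ∀ j : ℕ, ∃ N : ℕ, 2 * (Real.sqrt n * ((big n j).2 / 2 ^ N)) ≤ 1 / ((j : ℝ) + 1) := by
    intro j
    have h1 : Tendsto (fun N : ℕ => 2 * (Real.sqrt n * ((big n j).2 / 2 ^ N))) atTop
        (𝓝 (2 * (Real.sqrt n * 0))) :=
      ((tendsto_const_nhds.div_atTop (tendsto_pow_atTop_atTop_of_one_lt
        (one_lt_two (α := ℝ)))).const_mul _).const_mul _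
    rw [mul_zero, mul_zero] at h1
    exact (h1.eventually_le_const Nat.one_div_pos_of_nat).exists
  choose N hN using hN
  have hL : ∀ j, 0 < (big n j).2 := fun j => by simp [big]
  choose S hS1 hS2 using fun j => hC0 g hg (big n j).1 (big n j).2 (hL j) (N j)
  have hd : ∀ j, dcube (big n j).1 (big n j).2 0 0 = cube (big n j).1 (big n j).2 := by
    intro j
    ext y
    simp [mem_dcube, cube]
  let S' : ℕ → Option (Fin n → ZMod 3) → Finset (Euc n × ℝ) := fun j o =>
    o.elim ((Finset.range j).image (big n)) (S j)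
  refine ⟨fun j i => S' j (e.symm i), fun j i => ?_, fun x => ?_⟩
  · show Sparse _ (S' j (e.symm i))
    rcases e.symm i with _ | o
    · exact sparse_chain hn j
    · exact hS1 j o
  have hsum : ∀ j, ∑ i, sparseOp (S' j (e.symm i)) (fun y => ‖g y‖ₑ) x =
      (∑ i ∈ Finset.range j, (cube (big n i).1 (big n i).2).indicator
        (fun _ => avg (fun y => ‖g y‖ₑ) (big n i).1 (big n i).2) x) +
      ∑ o, sparseOp (S j o) (fun y => ‖g y‖ₑ) x := by
    intro j
    rw [e.symm.sum_comp (fun o => sparseOp (S' j o) (fun y => ‖g y‖ₑ) x), Fintype.sum_option]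
    congr 1
    exact Finset.sum_image fun i _ i' _ h => big_injective h
  simp_rw [hsum]
  refine iSup₂_le fun ε hε => ?_
  split_ifs with hint
  · have hlim : Tendsto (fun j => Tr K ((tcube (big n j).1 (big n j).2 0 0).indicator g) x ε) atTop
        (𝓝 (∫ y in {y | ε < ‖y - x‖}, K x y * g y)) := by
      refine tendsto_integral_of_dominated_convergence (fun y => ‖K x y * g y‖)
        (fun j => ((hI.1 x).mul (hg.aestronglyMeasurable.indicator
          (measurableSet_tcube _ _ _ _))).restrict) hint.norm (fun j => ae_of_all _ fun y => ?_)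
        (ae_of_all _ fun y => ?_)
      · rw [norm_mul, norm_mul]
        exact mul_le_mul_of_nonneg_left (norm_indicator_le_norm_self _ _) (norm_nonneg _)
      · refine tendsto_const_nhds.congr' ?_
        filter_upwards [eventually_mem_big y] with j hj
        rw [indicator_of_mem (dcube_subset_tcube (hL j) 0 0 (hd j ▸ hj))]
    rw [← hlim.enorm.liminf_eq]
    refine liminf_le_liminf ?_
    have h1 : ∀ᶠ j : ℕ in atTop, 1 / ((j : ℝ) + 1) ≤ ε :=
      (tendsto_one_div_add_atTop_nhds_zero_nat (𝕜 := ℝ)).eventually_le_const hε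
    filter_upwards [eventually_mem_big x, h1] with j hj1 hj2
    refine (hS2 j x (hd j ▸ hj1) ε ((hN j).trans hj2)).trans ?_
    exact mul_le_mul' (ENNReal.coe_le_coe.2 le_self_add) le_add_self
  · have htop : ∑' i, (cube (big n i).1 (big n i).2).indicator
        (fun _ => avg (fun y => ‖g y‖ₑ) (big n i).1 (big n i).2) x = ∞ := by
      by_contra h
      exact hint (integrableOn_of_chain hK hI hg x hε h)
    rw [← htop, ← (ENNReal.tendsto_nat_tsum _).liminf_eq]
    refine liminf_le_liminf (Eventually.of_forall fun j => ?_)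
    refine le_self_add.trans (le_mul_of_one_le_left zero_le ?_)
    exact_mod_cast le_add_self

end Pool.Agent.MP_6bb8b9_an.H83
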