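import Pool.Agent.MP_6bb8b9_an.H2.Spec

set_option autoImplicit false

open MeasureTheory Set Filter
open scoped ENNReal NNReal
open Pool.Agent.MP_6bb8b9_an.H2

namespace Pool.Agent.MP_6bb8b9_an.H83

variable {n : ℕ}

/-- Corner of the tripled dyadic cube. -/
noncomputable def tcorner (a : Euc n) (L : ℝ) (k : ℕ) (m : Fin n → ℤ) : Euc n :=
  WithLp.toLp 2 fun i => a i + ((m i : ℝ) - 1) * (L / 2 ^ k)

/-- The tripled dyadic cube. -/
def tcube (a : Euc n) (L : ℝ) (k : ℕ) (m : Fin n → ℤ) : Set (Euc n) :=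
  cube (tcorner a L k m) (3 * (L / 2 ^ k))

lemma mem_dcube {a : Euc n} {L : ℝ} {k : ℕ} {m : Fin n → ℤ} {x : Euc n} :
    x ∈ dcube a L k m ↔ ∀ i, a i + (m i : ℝ) * (L / 2 ^ k) ≤ x i ∧
      x i < a i + (m i : ℝ) * (L / 2 ^ k) + L / 2 ^ k := Iff.rfl

lemma mem_tcube {a : Euc n} {L : ℝ} {k : ℕ} {m : Fin n → ℤ} {x : Euc n} :
    x ∈ tcube a L k m ↔ ∀ i, a i + ((m i : ℝ) - 1) * (L / 2 ^ k) ≤ x i ∧
      x i < a i + ((m i : ℝ) - 1) * (L / 2 ^ k) + 3 * (L / 2 ^ k) := Iff.rfl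

lemma measurableSet_tcube (a : Euc n) (L : ℝ) (k : ℕ) (m : Fin n → ℤ) :
    MeasurableSet (tcube a L k m) := measurableSet_cube _ _

lemma dcube_subset_tcube {a : Euc n} {L : ℝ} (hL : 0 < L) (k : ℕ) (m : Fin n → ℤ) :
    dcube a L k m ⊆ tcube a L k m := by
  intro x hx i
  have hs : 0 < L / 2 ^ k := by positivity
  have := mem_dcube.1 hx i
  show a i + ((m i : ℝ) - 1) * (L / 2 ^ k) ≤ x i ∧
      x i < a i + ((m i : ℝ) - 1) * (L / 2 ^ k) + 3 * (L / 2 ^ k)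
  constructor <;> linarith [this.1, this.2]

lemma volume_tcube (a : Euc n) {L : ℝ} (hL : 0 < L) (k : ℕ) (m : Fin n → ℤ) :
    volume (tcube a L k m) = 3 ^ n * volume (dcube a L k m) := by
  rw [tcube, volume_cube _ (by positivity), volume_dcube a hL, mul_pow,
    ENNReal.ofReal_mul (by positivity), ENNReal.ofReal_pow (by norm_num)]
  simp

lemma side_anti {L : ℝ} (hL : 0 < L) {k j : ℕ} (h : k ≤ j) : L / 2 ^ j ≤ L / 2 ^ k := by
  have : (2 : ℝ) ^ k ≤ 2 ^ j := pow_le_pow_right₀ (by norm_num) h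
  gcongr

lemma dcorner_mem {a : Euc n} {L : ℝ} (hL : 0 < L) (k : ℕ) (m : Fin n → ℤ) :
    dcorner a L k m ∈ dcube a L k m := self_mem_cube _ (by positivity)

/-- Tripling is monotone. -/
lemma tcube_subset {a : Euc n} {L : ℝ} (hL : 0 < L) {k j : ℕ} (hkj : k ≤ j)
    {m m' : Fin n → ℤ} (h : dcube a L j m' ⊆ dcube a L k m) : tcube a L j m' ⊆ tcube a L k m := by
  intro x hx i
  have hs := side_anti hL hkj
  have hs' : 0 < L / 2 ^ j := by positivity
  have h1 := mem_dcube.1 (h (dcorner_mem hL j m')) i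
  have h2 := mem_tcube.1 hx i
  have h3 : (dcorner a L j m') i = a i + (m' i : ℝ) * (L / 2 ^ j) := rfl
  rw [h3] at h1
  have h4 : L / 2 ^ k = 2 ^ (j - k) * (L / 2 ^ j) := by
    have : (2 : ℝ) ^ j = 2 ^ (j - k) * 2 ^ k := by rw [← pow_add]; congr 1; omega
    rw [this]; field_simp
  have h5 : (m' i : ℝ) + 1 ≤ (m i + 1) * 2 ^ (j - k) := by
    have : (m' i : ℝ) * (L / 2 ^ j) < ((m i + 1) * 2 ^ (j - k)) * (L / 2 ^ j) := by
      have := h1.2
      rw [h4] at this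
      linarith
    have h6 : (m' i : ℝ) < (m i + 1) * 2 ^ (j - k) := lt_of_mul_lt_mul_right this hs'.le
    have h7 : m' i < (m i + 1) * 2 ^ (j - k) := by exact_mod_cast h6
    exact_mod_cast h7
  have h8 : ((m' i : ℝ) + 1) * (L / 2 ^ j) ≤ (m i + 1) * (L / 2 ^ k) := by
    rw [h4, ← mul_assoc]
    exact mul_le_mul_of_nonneg_right h5 hs'.le
  show a i + ((m i : ℝ) - 1) * (L / 2 ^ k) ≤ x i ∧
      x i < a i + ((m i : ℝ) - 1) * (L / 2 ^ k) + 3 * (L / 2 ^ k)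
  constructor <;> linarith [h1.1, h2.1, h2.2]

lemma le_norm_of_notMem_tcube {a : Euc n} {L : ℝ} {k : ℕ} {m : Fin n → ℤ} {x y : Euc n}
    (hx : x ∈ dcube a L k m) (hy : y ∉ tcube a L k m) : L / 2 ^ k ≤ ‖x - y‖ := by
  by_contra hlt
  refine hy fun i => ?_
  have h1 := mem_dcube.1 hx i
  have h2 := (abs_coord_le_norm (x - y) i).trans_lt (not_le.1 hlt)
  rw [PiLp.sub_apply, abs_lt] at h2
  show a i + ((m i : ℝ) - 1) * (L / 2 ^ k) ≤ y i ∧
      y i < a i + ((m i : ℝ) - 1) * (L / 2 ^ k) + 3 * (L / 2 ^ k)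
  constructor <;> linarith [h1.1, h1.2, h2.1, h2.2]

lemma finite_dcube_subset {a : Euc n} {L : ℝ} (hL : 0 < L) (j : ℕ) {S : Set (Euc n)}
    (hS : Bornology.IsBounded S) : {m : Fin n → ℤ | dcube a L j m ⊆ S}.Finite := by
  obtain ⟨R, hR⟩ := hS.subset_closedBall a
  have hs : 0 < L / 2 ^ j := by positivity
  obtain ⟨M, hM⟩ := exists_nat_ge (R / (L / 2 ^ j))
  refine (Finite.pi' (t := fun _ : Fin n => Icc (-(M : ℤ)) M) fun _ => finite_Icc _ _).subset ?_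
  intro m hm i
  have h1 := mem_closedBall_iff_norm.1 (hR (hm (dcorner_mem hL j m)))
  have h2 := (abs_coord_le_norm _ i).trans h1
  have h3 : (dcorner a L j m - a) i = (m i : ℝ) * (L / 2 ^ j) := by
    rw [PiLp.sub_apply]
    show a i + (m i : ℝ) * (L / 2 ^ j) - a i = _
    ring
  rw [h3, abs_mul, abs_of_pos hs, ← le_div_iff₀ hs] at h2
  have h4 : |(m i : ℝ)| ≤ M := h2.trans hM
  have h5 : |m i| ≤ (M : ℤ) := by exact_mod_cast h4
  exact abs_le.1 h5

/-- The lattice class of a tripled cube. -/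
def cls (Q : ℕ × (Fin n → ℤ)) : Fin n → ZMod 3 := fun i => ((2 ^ Q.1 * (Q.2 i - 1) : ℤ) : ZMod 3)

lemma int_nested {u w : ℤ} {k d : ℕ} (h : ((2 ^ k * (u - 1) : ℤ) : ZMod 3) =
      ((2 ^ (k + d) * (w - 1) : ℤ) : ZMod 3))
    (h1 : (u - 1) * 2 ^ d < w + 2) (h2 : w - 1 < (u + 2) * 2 ^ d) :
    (u - 1) * 2 ^ d ≤ w - 1 ∧ w + 2 ≤ (u + 2) * 2 ^ d := by
  have h4 : ∀ e : ℕ, (2 : ZMod 3) ^ e * 2 ^ e = 1 := fun e => by
    rw [← mul_pow]
    have : (2 : ZMod 3) * 2 = 1 := by decide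
    rw [this, one_pow]
  have h3 : (((u - 1) * 2 ^ d : ℤ) : ZMod 3) = ((w - 1 : ℤ) : ZMod 3) := by
    push_cast at h ⊢
    rw [pow_add] at h
    have e1 := h4 k
    have e2 := h4 d
    linear_combination (2 ^ k * 2 ^ d) * h - ((u : ZMod 3) - 1) * 2 ^ d * e1 +
      ((w : ZMod 3) - 1) * (2 ^ d * 2 ^ d) * e1 + ((w : ZMod 3) - 1) * e2
  rw [ZMod.intCast_eq_intCast_iff_dvd_sub] at h3
  obtain ⟨q, hq⟩ := h3
  have h5 : (u + 2) * 2 ^ d = (u - 1) * 2 ^ d + 3 * 2 ^ d := by ring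
  rw [h5] at h2 ⊢
  generalize (u - 1) * 2 ^ d = s at *
  generalize (2 : ℤ) ^ d = t at *
  push_cast at hq
  omega

lemma cls_nested {a : Euc n} {L : ℝ} (hL : 0 < L) {k d : ℕ} {m m' : Fin n → ℤ}
    (h : cls (k, m) = cls (k + d, m')) {x : Euc n} (hx : x ∈ tcube a L k m)
    (hx' : x ∈ tcube a L (k + d) m') (i : Fin n) :
    (m i - 1) * 2 ^ d ≤ m' i - 1 ∧ m' i + 2 ≤ (m i + 2) * 2 ^ d := by
  have hs' : 0 < L / 2 ^ (k + d) := by positivity
  have h4 : L / 2 ^ k = 2 ^ d * (L / 2 ^ (k + d)) := by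
    rw [pow_add]; field_simp
  have h1 := mem_tcube.1 hx i
  have h2 := mem_tcube.1 hx' i
  rw [h4] at h1
  refine int_nested (congrFun h i) ?_ ?_
  · have : (((m i : ℝ) - 1) * 2 ^ d) * (L / 2 ^ (k + d)) < (m' i + 2) * (L / 2 ^ (k + d)) := by
      linarith [h1.1, h2.2]
    have h6 := lt_of_mul_lt_mul_right this hs'.le
    exact_mod_cast h6
  · have : ((m' i : ℝ) - 1) * (L / 2 ^ (k + d)) < ((m i + 2) * 2 ^ d) * (L / 2 ^ (k + d)) := by
      linarith [h1.2, h2.1]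
    have h6 := lt_of_mul_lt_mul_right this hs'.le
    exact_mod_cast h6

lemma cls_ssubset (hn : 0 < n) {a : Euc n} {L : ℝ} (hL : 0 < L) {k k' : ℕ} (hk : k ≤ k')
    {m m' : Fin n → ℤ} (h : cls (k, m) = cls (k', m')) (hne : (k, m) ≠ (k', m')) {x : Euc n}
    (hx : x ∈ tcube a L k m) (hx' : x ∈ tcube a L k' m') : tcube a L k' m' ⊂ tcube a L k m := by
  obtain ⟨d, rfl⟩ := Nat.exists_eq_add_of_le hk
  have key := cls_nested hL h hx hx'
  have hs' : 0 < L / 2 ^ (k + d) := by positivity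
  have h4 : L / 2 ^ k = 2 ^ d * (L / 2 ^ (k + d)) := by
    rw [pow_add]; field_simp
  have hd : d ≠ 0 := by
    rintro rfl
    refine hne (Prod.ext rfl (funext fun i => ?_))
    have := key i
    simp only [pow_zero, mul_one] at this
    show m i = m' i
    omega
  refine ⟨fun y hy i => ?_, fun hsub => ?_⟩
  · have h1 := mem_tcube.1 hy i
    have h2 : ((m i : ℝ) - 1) * 2 ^ d ≤ m' i - 1 := by exact_mod_cast (key i).1
    have h3 : (m' i : ℝ) + 2 ≤ (m i + 2) * 2 ^ d := by exact_mod_cast (key i).2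
    have h5 := mul_le_mul_of_nonneg_right h2 hs'.le
    have h6 := mul_le_mul_of_nonneg_right h3 hs'.le
    show a i + ((m i : ℝ) - 1) * (L / 2 ^ k) ≤ y i ∧
      y i < a i + ((m i : ℝ) - 1) * (L / 2 ^ k) + 3 * (L / 2 ^ k)
    rw [h4]
    constructor <;> linarith [h1.1, h1.2]
  · have h1 := measure_mono (μ := volume) hsub
    rw [tcube, tcube, volume_cube _ (by positivity), volume_cube _ (by positivity),
      ENNReal.ofReal_le_ofReal_iff (by positivity),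
      pow_le_pow_iff_left₀ (by positivity) (by positivity) hn.ne', h4] at h1
    have h2 : (1 : ℝ) < 2 ^ d := one_lt_pow₀ (by norm_num) hd
    nlinarith

/-- The pair (corner, side) of the tripled cube. -/
noncomputable def tpair (a : Euc n) (L : ℝ) (Q : ℕ × (Fin n → ℤ)) : Euc n × ℝ :=
  (tcorner a L Q.1 Q.2, 3 * (L / 2 ^ Q.1))

lemma tpair_injective (a : Euc n) {L : ℝ} (hL : 0 < L) : Function.Injective (tpair a L) := by
  rintro ⟨k, m⟩ ⟨k', m'⟩ h
  have h1 : 3 * (L / 2 ^ k) = 3 * (L / 2 ^ k') := congrArg Prod.snd h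
  have h2 : (2 : ℝ) ^ k = 2 ^ k' := by
    field_simp at h1
    exact h1.symm
  obtain rfl : k = k' := pow_right_injective₀ (by norm_num) (by norm_num) h2
  refine Prod.ext rfl (funext fun i => ?_)
  have h3 : a i + ((m i : ℝ) - 1) * (L / 2 ^ k) = a i + ((m' i : ℝ) - 1) * (L / 2 ^ k) :=
    congrArg (fun z : Euc n × ℝ => z.1 i) h
  have hs : L / 2 ^ k ≠ 0 := by positivity
  have h4 : (m i : ℝ) = m' i := by
    have := mul_right_cancel₀ hs (add_left_cancel h3)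
    linarith
  exact_mod_cast h4

/-- Distributing a sparse dyadic family among the lattices of tripled cubes. -/
lemma three_lattices (hn : 0 < n) (a : Euc n) {L : ℝ} (hL : 0 < L)
    (𝓕 : Finset (ℕ × (Fin n → ℤ))) (F : ℕ × (Fin n → ℤ) → Set (Euc n))
    (hF : ∀ Q ∈ 𝓕, MeasurableSet (F Q) ∧ F Q ⊆ dcube a L Q.1 Q.2 ∧
      volume (dcube a L Q.1 Q.2) ≤ 2 * volume (F Q))
    (hd : (𝓕 : Set (ℕ × (Fin n → ℤ))).PairwiseDisjoint F) (h : Euc n → ℝ≥0∞) :
    ∃ S : (Fin n → ZMod 3) → Finset (Euc n × ℝ), (∀ c, Sparse (1 / (2 * 3 ^ n)) (S c)) ∧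
      ∀ x, ∑ Q ∈ 𝓕, (dcube a L Q.1 Q.2).indicator
        (fun _ => avg h (tcorner a L Q.1 Q.2) (3 * (L / 2 ^ Q.1))) x ≤ ∑ c, sparseOp (S c) h x := by
  classical
  have hinj := tpair_injective a hL
  have hinv := Function.leftInverse_invFun hinj
  refine ⟨fun c => (𝓕.filter fun Q => cls Q = c).image (tpair a L), fun c => ⟨⟨?_, ?_⟩, ?_⟩, ?_⟩
  · intro R hR
    obtain ⟨Q, -, rfl⟩ := Finset.mem_image.1 hR
    show 0 < 3 * (L / 2 ^ Q.1)
    positivity
  · intro R hR R' hR' hne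
    obtain ⟨Q, hQ, rfl⟩ := Finset.mem_image.1 hR
    obtain ⟨Q', hQ', rfl⟩ := Finset.mem_image.1 hR'
    have hc : cls Q = cls Q' := (Finset.mem_filter.1 hQ).2.trans (Finset.mem_filter.1 hQ').2.symm
    have hne' : Q ≠ Q' := fun e => hne (by rw [e])
    by_cases hdis : Disjoint (tcube a L Q.1 Q.2) (tcube a L Q'.1 Q'.2)
    · exact Or.inl hdis
    · obtain ⟨x, hx, hx'⟩ := Set.not_disjoint_iff.1 hdis
      rcases le_total Q.1 Q'.1 with hk | hk
      · exact Or.inr (Or.inr (cls_ssubset hn hL hk hc hne' hx hx'))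
      · exact Or.inr (Or.inl (cls_ssubset hn hL hk hc.symm hne'.symm hx' hx))
  · refine ⟨fun R => F (Function.invFun (tpair a L) R), ?_, ?_⟩
    · intro R hR
      obtain ⟨Q, hQ, rfl⟩ := Finset.mem_image.1 hR
      obtain ⟨h1, h2, h3⟩ := hF Q (Finset.mem_filter.1 hQ).1
      simp only [hinv Q]
      refine ⟨h1, h2.trans (dcube_subset_tcube hL _ _), ?_⟩
      show ENNReal.ofReal (1 / (2 * 3 ^ n)) * volume (tcube a L Q.1 Q.2) ≤ _
      rw [volume_tcube a hL]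
      calc ENNReal.ofReal (1 / (2 * 3 ^ n)) * (3 ^ n * volume (dcube a L Q.1 Q.2))
          ≤ ENNReal.ofReal (1 / (2 * 3 ^ n)) * (3 ^ n * (2 * volume (F Q))) := by gcongr
        _ = (ENNReal.ofReal (1 / (2 * 3 ^ n)) * ENNReal.ofReal (2 * 3 ^ n)) * volume (F Q) := by
          rw [ENNReal.ofReal_mul (by norm_num), ENNReal.ofReal_pow (by norm_num)]
          simp only [ENNReal.ofReal_ofNat]
          ring
        _ = volume (F Q) := by
          rw [← ENNReal.ofReal_mul (by positivity), one_div_mul_cancel (by positivity)]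
          simp
    · intro R hR R' hR' hne
      obtain ⟨Q, hQ, rfl⟩ := Finset.mem_image.1 hR
      obtain ⟨Q', hQ', rfl⟩ := Finset.mem_image.1 hR'
      simp only [Function.onFun, hinv Q, hinv Q']
      exact hd (Finset.mem_filter.1 hQ).1 (Finset.mem_filter.1 hQ').1 fun e => hne (by rw [e])
  · intro x
    rw [← Finset.sum_fiberwise (s := 𝓕) (g := cls)]
    refine Finset.sum_le_sum fun c _ => ?_
    rw [sparseOp, Finset.sum_image fun Q _ Q' _ e => hinj e]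
    refine Finset.sum_le_sum fun Q _ => ?_
    exact indicator_le_indicator_of_subset (dcube_subset_tcube hL _ _) (fun _ => zero_le) x

end Pool.Agent.MP_6bb8b9_an.H83
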