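import Pool.Agent.MP_6bb8b9_an.H83.Geo

set_option autoImplicit false

open MeasureTheory Set Filter
open scoped ENNReal NNReal
open Pool.Agent.MP_6bb8b9_an.H2

namespace Pool.Agent.MP_6bb8b9_an.H83

variable {n : ℕ} {𝕜 : Type} [RCLike 𝕜]

lemma measurableSet_trunc (x : Euc n) (ε : ℝ) : MeasurableSet {y : Euc n | ε < ‖y - x‖} :=
  (isOpen_lt continuous_const (continuous_id.sub continuous_const).norm).measurableSet

lemma enorm_Tr_le_maxSing {K : Euc n → Euc n → 𝕜} {g : Euc n → 𝕜} {x : Euc n} {ε : ℝ}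
    (hε : 0 < ε) (h : IntegrableOn (fun y => K x y * g y) {y | ε < ‖y - x‖} volume) :
    ‖Tr K g x ε‖ₑ ≤ maxSing K g x := by
  refine le_iSup₂_of_le (f := fun (ε : ℝ) (_ : 0 < ε) => by
    classical
    exact if IntegrableOn (fun y => K x y * g y) {y | ε < ‖y - x‖} volume then
      ‖∫ y in {y | ε < ‖y - x‖}, K x y * g y‖ₑ else ∞) ε hε ?_
  rw [if_pos h]
  rfl

lemma integrable_indicator_cube {g : Euc n → 𝕜} (hg : LocallyIntegrable g volume) (a : Euc n)
    (l : ℝ) : Integrable ((cube a l).indicator g) volume := by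
  rw [integrable_indicator_iff (measurableSet_cube a l)]
  exact (hg.integrableOn_isCompact (isBounded_cube a l).isCompact_closure).mono_set subset_closure

lemma lintegral_enorm_indicator {g : Euc n → 𝕜} (a : Euc n) (l : ℝ) :
    ∫⁻ y, ‖(cube a l).indicator g y‖ₑ = ∫⁻ y in cube a l, ‖g y‖ₑ := by
  rw [← lintegral_indicator (measurableSet_cube a l)]
  congr 1
  funext y
  rw [enorm_indicator_eq_indicator_enorm]

/-- The exceptional set. -/
lemma exists_bad {K : Euc n → Euc n → 𝕜} (hM : SpecMWeak n) (hW : SpecWeak11 K) :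
    ∃ A : ℝ≥0, ∀ g : Euc n → 𝕜, LocallyIntegrable g volume → ∀ (b : Euc n) (l : ℝ), 0 < l →
      ∀ V : ℝ≥0∞, volume (cube b l) = 3 ^ n * V →
      ∃ B : Set (Euc n), MeasurableSet B ∧ 4 * volume B ≤ V ∧ ∀ x, x ∉ B →
        maxSing K ((cube b l).indicator g) x ≤ A * avg (fun y => ‖g y‖ₑ) b l ∧
        Mx (fun y => ‖(cube b l).indicator g y‖ₑ) x ≤ A * avg (fun y => ‖g y‖ₑ) b l := by
  obtain ⟨C1, hC1⟩ := hW
  obtain ⟨C2, hC2⟩ := hM
  refine ⟨8 * (3 ^ n * (C1 + C2 + 1)), fun g hg b l hl V hV => ?_⟩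
  have hint := integrable_indicator_cube hg b l
  have hI := lintegral_enorm_indicator (g := g) b l
  have hfin : ∫⁻ y in cube b l, ‖g y‖ₑ < ∞ := hI ▸ hint.2
  have hv0 := (volume_cube_pos b hl).ne'
  have hvt := (volume_cube_lt_top b l).ne
  set α := avg (fun y => ‖g y‖ₑ) b l with hα
  have hαv : α * volume (cube b l) = ∫⁻ y in cube b l, ‖g y‖ₑ :=
    ENNReal.div_mul_cancel hv0 hvt
  have hαt : α ≠ ∞ := ENNReal.div_ne_top hfin.ne hv0
  by_cases h0 : α = 0
  · have hz : ∀ᵐ y ∂volume, (cube b l).indicator g y = 0 := by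
      rw [h0, zero_mul, ← hI, eq_comm, lintegral_eq_zero_iff' hint.1.enorm] at hαv
      filter_upwards [hαv] with y hy
      simpa using hy
    refine ⟨∅, MeasurableSet.empty, by simp, fun x _ => ⟨?_, ?_⟩⟩
    · rw [h0, mul_zero]
      refine iSup₂_le fun ε _ => ?_
      have h1 : (fun y => K x y * (cube b l).indicator g y) =ᵐ[volume.restrict
          {y | ε < ‖y - x‖}] 0 := by
        refine ae_restrict_of_ae ?_
        filter_upwards [hz] with y hy
        simp [hy]
      have h2 : IntegrableOn (fun y => K x y * (cube b l).indicator g y) {y | ε < ‖y - x‖}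
          volume := (integrable_congr h1).2 (integrable_zero _ _ _)
      rw [if_pos h2, integral_congr_ae h1]
      simp
    · rw [h0, mul_zero]
      refine iSup₂_le fun r _ => ?_
      have h1 : (fun y => ‖(cube b l).indicator g y‖ₑ) =ᵐ[volume.restrict (Metric.ball x r)]
          0 := by
        refine ae_restrict_of_ae ?_
        filter_upwards [hz] with y hy
        simp [hy]
      rw [lintegral_congr_ae h1]
      simp
  · lift α to ℝ≥0 using hαt with α' hα'
    have hb : Bornology.IsBounded (Function.support ((cube b l).indicator g)) :=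
      (isBounded_cube b l).subset support_indicator_subset
    have h1 := hC1 _ hint hb (8 * (3 ^ n * (C1 + C2 + 1)) * α')
    have h2 := hC2 _ hint.1.enorm (8 * (3 ^ n * (C1 + C2 + 1)) * α')
    rw [hI, ← hαv, hV] at h1 h2
    have key : ∀ (C : ℝ≥0) (W : ℝ≥0∞), C ≤ C1 + C2 + 1 →
        ((8 * (3 ^ n * (C1 + C2 + 1)) * α' : ℝ≥0) : ℝ≥0∞) * W ≤ C * (α' * (3 ^ n * V)) →
        8 * W ≤ V := by
      intro C W hC h
      have hne : ((3 ^ n * (C1 + C2 + 1) * α' : ℝ≥0) : ℝ≥0∞) ≠ 0 := by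
        have : α' ≠ 0 := fun e => h0 (by rw [e]; rfl)
        exact_mod_cast (by positivity : (3 ^ n * (C1 + C2 + 1) * α' : ℝ≥0) ≠ 0)
      refine (ENNReal.mul_le_mul_iff_right hne ENNReal.coe_ne_top).1 ?_
      calc ((3 ^ n * (C1 + C2 + 1) * α' : ℝ≥0) : ℝ≥0∞) * (8 * W)
          = ((8 * (3 ^ n * (C1 + C2 + 1)) * α' : ℝ≥0) : ℝ≥0∞) * W := by push_cast; ring
        _ ≤ C * (α' * (3 ^ n * V)) := h
        _ ≤ ((C1 + C2 + 1 : ℝ≥0) : ℝ≥0∞) * (α' * (3 ^ n * V)) := by gcongr
        _ = _ := by push_cast; ring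
    have h3 := key C1 _ (by rw [add_assoc]; exact le_self_add) h1
    have h4 := key C2 _ (by rw [add_comm C1, add_assoc]; exact le_self_add) h2
    refine ⟨toMeasurable volume ({x | ((8 * (3 ^ n * (C1 + C2 + 1)) * α' : ℝ≥0) : ℝ≥0∞) <
        maxSing K ((cube b l).indicator g) x} ∪ {x | ((8 * (3 ^ n * (C1 + C2 + 1)) * α' : ℝ≥0) :
        ℝ≥0∞) < Mx (fun y => ‖(cube b l).indicator g y‖ₑ) x}), measurableSet_toMeasurable _ _,
        ?_, fun x hx => ?_⟩
    · rw [measure_toMeasurable]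
      refine (ENNReal.mul_le_mul_iff_right (a := 2) (by norm_num) (by norm_num)).1 ?_
      calc (2 : ℝ≥0∞) * (4 * volume _) ≤ 2 * (4 * (volume _ + volume _)) := by
            gcongr; exact measure_union_le _ _
        _ = 8 * volume _ + 8 * volume _ := by ring
        _ ≤ V + V := add_le_add h3 h4
        _ = 2 * V := by ring
    · have h5 := fun h => hx (subset_toMeasurable _ _ h)
      rw [← ENNReal.coe_mul]
      exact ⟨not_lt.1 fun h => h5 (Or.inl h), not_lt.1 fun h => h5 (Or.inr h)⟩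

lemma lintegral_ball_le (h : Euc n → ℝ≥0∞) (x : Euc n) {r : ℝ} (hr : 0 < r) :
    ∫⁻ y in Metric.ball x r, h y ≤ ENNReal.ofReal (r ^ n) * Mx h x := by
  have h1 : (∫⁻ y in Metric.ball x r, h y) / ENNReal.ofReal (r ^ n) ≤ Mx h x :=
    le_iSup₂_of_le (f := fun (r : ℝ) (_ : 0 < r) =>
      (∫⁻ y in Metric.ball x r, h y) / ENNReal.ofReal (r ^ n)) r hr le_rfl
  rw [mul_comm]
  exact (ENNReal.div_le_iff (ENNReal.ofReal_pos.2 (by positivity)).ne' ENNReal.ofReal_ne_top).1 h1

/-- Removing the tripled stopping cube. -/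
lemma split_est (hn : 0 < n) {K : Euc n → Euc n → 𝕜} {c δ : ℝ} (hK : KB K c δ) (hI : SpecInt K)
    {g : Euc n → 𝕜} (hg : Integrable g volume) {a : Euc n} {L : ℝ} (hL : 0 < L) {j : ℕ}
    {m : Fin n → ℤ} {x x' : Euc n} (hx : x ∈ dcube a L j m)
    (hxx : ‖x - x'‖ ≤ 2 * (Real.sqrt n * (L / 2 ^ j))) {ε : ℝ} (hε : 0 < ε) :
    ‖Tr K g x ε‖ₑ ≤ ‖Tr K ((tcube a L j m).indicator g) x ε‖ₑ +
      ‖Tr K g x (max ε (4 * (Real.sqrt n * (L / 2 ^ j))))‖ₑ +
      ENNReal.ofReal (c * (7 * Real.sqrt n) ^ n) * Mx (fun y => ‖g y‖ₑ) x' := by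
  set l := L / 2 ^ j with hl
  have hl0 : 0 < l := by positivity
  have hs : 0 < Real.sqrt n := Real.sqrt_pos.2 (by exact_mod_cast hn)
  have hsl : 0 < Real.sqrt n * l := mul_pos hs hl0
  set ε1 := max ε (4 * (Real.sqrt n * l)) with hε1
  have hε1pos : 0 < ε1 := lt_max_of_lt_left hε
  have hg' : Integrable ((tcube a L j m).indicator g) volume :=
    hg.indicator (measurableSet_tcube a L j m)
  have i1 := (integrable_indicator_iff (measurableSet_trunc x ε)).2 (hI.2 g hg x ε hε)
  have i2 := (integrable_indicator_iff (measurableSet_trunc x ε)).2 (hI.2 _ hg' x ε hε)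
  have i3 := (integrable_indicator_iff (measurableSet_trunc x ε1)).2 (hI.2 g hg x ε1 hε1pos)
  have e : Tr K g x ε = Tr K ((tcube a L j m).indicator g) x ε + Tr K g x ε1 +
      ∫ y, ({y | ε < ‖y - x‖}.indicator (fun y => K x y * g y) y -
        {y | ε < ‖y - x‖}.indicator (fun y => K x y * (tcube a L j m).indicator g y) y -
        {y | ε1 < ‖y - x‖}.indicator (fun y => K x y * g y) y) := by
    rw [integral_sub (i1.sub' i2) i3, integral_sub i1 i2,
      integral_indicator (measurableSet_trunc x ε), integral_indicator (measurableSet_trunc x ε),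
      integral_indicator (measurableSet_trunc x ε1)]
    simp only [Tr]
    ring
  rw [e]
  refine (enorm_add_le _ _).trans (add_le_add (enorm_add_le _ _) ?_)
  refine (enorm_integral_le_lintegral_enorm _).trans ?_
  have hpt : ∀ y, ‖{y | ε < ‖y - x‖}.indicator (fun y => K x y * g y) y -
        {y | ε < ‖y - x‖}.indicator (fun y => K x y * (tcube a L j m).indicator g y) y -
        {y | ε1 < ‖y - x‖}.indicator (fun y => K x y * g y) y‖ₑ ≤
      (Metric.ball x' (7 * (Real.sqrt n * l))).indicator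
        (fun y => ENNReal.ofReal (c * (l ^ n)⁻¹) * ‖g y‖ₑ) y := by
    intro y
    by_cases hy1 : ε1 < ‖y - x‖
    · have hy0 : ε < ‖y - x‖ := (le_max_left _ _).trans_lt hy1
      have hyt : y ∉ tcube a L j m := by
        intro hy
        have h1 := norm_sub_le_of_mem_cube (by positivity) hy (dcube_subset_tcube hL j m hx)
        have h2 := (le_max_right _ _).trans_lt hy1
        rw [← hl] at h1
        nlinarith
      simp [hy0, hy1, hyt]
    · by_cases hy0 : ε < ‖y - x‖
      · by_cases hyt : y ∈ tcube a L j m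
        · simp [hy0, hy1, hyt]
        · have h1 := le_norm_of_notMem_tcube hx hyt
          rw [← hl] at h1
          have h2 : ‖y - x‖ ≤ 4 * (Real.sqrt n * l) := by
            rcases le_max_iff.1 (not_lt.1 hy1) with h | h
            · exact absurd hy0 (not_lt.2 h)
            · exact h
          have h3 : y ∈ Metric.ball x' (7 * (Real.sqrt n * l)) := by
            rw [mem_ball_iff_norm]
            have := norm_sub_le_norm_sub_add_norm_sub y x x'
            linarith
          have hne : x ≠ y := by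
            rintro rfl
            simp at h1
            linarith
          have h4 : ‖K x y‖ ≤ c * (l ^ n)⁻¹ := by
            refine (hK.size x y hne).trans (mul_le_mul_of_nonneg_left ?_ hK.c_nonneg)
            rw [Real.rpow_neg (norm_nonneg _), Real.rpow_natCast]
            exact inv_anti₀ (by positivity) (pow_le_pow_left₀ hl0.le h1 n)
          rw [indicator_of_mem h3]
          simp only [mem_ofPred_eq, hy0, hy1, indicator_of_mem, indicator_of_notMem hyt, mul_zero,
            sub_zero, not_false_eq_true, indicator_of_notMem, enorm_mul]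
          gcongr
          rw [← ofReal_norm]
          exact ENNReal.ofReal_le_ofReal h4
      · simp [hy0, hy1]
  refine (lintegral_mono hpt).trans ?_
  rw [lintegral_indicator Metric.isOpen_ball.measurableSet,
    lintegral_const_mul' _ _ ENNReal.ofReal_ne_top]
  refine (mul_le_mul_right (lintegral_ball_le _ x' (by positivity)) _).trans (le_of_eq ?_)
  rw [← mul_assoc, ← ENNReal.ofReal_mul (mul_nonneg hK.c_nonneg (by positivity))]
  congr 2
  rw [← mul_assoc, mul_pow]
  field_simp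

/-- One step of the stopping time construction. -/
lemma one_step (hn : 0 < n) {K : Euc n → Euc n → 𝕜} {c δ : ℝ} (hK : KB K c δ)
    (hM : SpecMWeak n) (hI : SpecInt K) (hC : SpecCompare K) (hW : SpecWeak11 K) :
    ∃ C0 : ℝ≥0, ∀ g : Euc n → 𝕜, LocallyIntegrable g volume → ∀ (a : Euc n) (L : ℝ), 0 < L →
      ∀ (N : ℕ) (P : ℕ × (Fin n → ℤ)), ∃ ch : Finset (ℕ × (Fin n → ℤ)),
        (∀ R ∈ ch, P.1 < R.1 ∧ R.1 ≤ N ∧ dcube a L R.1 R.2 ⊆ dcube a L P.1 P.2) ∧
        (ch : Set (ℕ × (Fin n → ℤ))).PairwiseDisjoint (fun R => dcube a L R.1 R.2) ∧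
        volume (dcube a L P.1 P.2) ≤
          2 * volume (dcube a L P.1 P.2 \ ⋃ R ∈ ch, dcube a L R.1 R.2) ∧
        (P.1 ≤ N → ∀ x ∈ dcube a L P.1 P.2, ∀ ε : ℝ, 2 * (Real.sqrt n * (L / 2 ^ N)) ≤ ε →
          ‖Tr K ((tcube a L P.1 P.2).indicator g) x ε‖ₑ ≤
            C0 * avg (fun y => ‖g y‖ₑ) (tcorner a L P.1 P.2) (3 * (L / 2 ^ P.1)) ∨
          ∃ R ∈ ch, x ∈ dcube a L R.1 R.2 ∧ ‖Tr K ((tcube a L P.1 P.2).indicator g) x ε‖ₑ ≤
            C0 * avg (fun y => ‖g y‖ₑ) (tcorner a L P.1 P.2) (3 * (L / 2 ^ P.1)) +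
            ‖Tr K ((tcube a L R.1 R.2).indicator g) x ε‖ₑ) := by
  classical
  obtain ⟨A, hA⟩ := exists_bad hM hW
  obtain ⟨Cc, hCc⟩ := hC
  refine ⟨(1 + Cc + Real.toNNReal (c * (7 * Real.sqrt n) ^ n)) * A, ?_⟩
  rintro g hg a L hL N ⟨k, m⟩
  obtain ⟨B, hBm, hBv, hB⟩ := hA g hg (tcorner a L k m) (3 * (L / 2 ^ k)) (by positivity)
    (volume (dcube a L k m)) (volume_tcube a hL k m)
  set α := avg (fun y => ‖g y‖ₑ) (tcorner a L k m) (3 * (L / 2 ^ k)) with hα
  let H : ℕ → (Fin n → ℤ) → Prop := fun i m' =>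
    volume (dcube a L i m') ≤ 2 * volume (dcube a L i m' ∩ B)
  have hv0 : ∀ i m', volume (dcube a L i m') ≠ 0 := fun i m' =>
    (volume_cube_pos _ (by positivity)).ne'
  have hvt : ∀ i m', volume (dcube a L i m') ≠ ∞ := fun i m' => (volume_cube_lt_top _ _).ne
  have hHk : ¬ H k m := by
    intro h
    have h1 : 2 * volume (dcube a L k m) ≤ 1 * volume (dcube a L k m) :=
      calc 2 * volume (dcube a L k m) ≤ 2 * (2 * volume (dcube a L k m ∩ B)) := by gcongr
        _ ≤ 2 * (2 * volume B) := by gcongr; exact inter_subset_right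
        _ = 4 * volume B := by ring
        _ ≤ 1 * volume (dcube a L k m) := by rwa [one_mul]
    have := (ENNReal.mul_le_mul_iff_left (hv0 k m) (hvt k m)).1 h1
    norm_num at this
  have hpt : ∀ i m', ¬ H i m' → ∃ x' ∈ dcube a L i m', x' ∉ B := by
    intro i m' h
    by_contra hcon
    refine h ?_
    have : dcube a L i m' ∩ B = dcube a L i m' :=
      inter_eq_left.2 fun y hy => by_contra fun hyB => hcon ⟨y, hy, hyB⟩
    show volume (dcube a L i m') ≤ 2 * volume (dcube a L i m' ∩ B)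
    rw [this, two_mul]
    exact le_self_add
  let St : Set (ℕ × (Fin n → ℤ)) := {R | k < R.1 ∧ R.1 ≤ N ∧ dcube a L R.1 R.2 ⊆ dcube a L k m ∧
    H R.1 R.2 ∧ ∀ i, k ≤ i → i < R.1 → ∀ y ∈ dcube a L R.1 R.2, ¬ H i (didx a L i y)}
  have hfin : St.Finite := by
    refine ((finite_le_nat N).biUnion (t := fun j => (fun m' => (j, m')) ''
      {m' | dcube a L j m' ⊆ dcube a L k m}) fun j _ =>
        (finite_dcube_subset hL j (isBounded_cube _ _)).image _).subset ?_
    rintro ⟨j, m'⟩ hR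
    exact mem_iUnion₂.2 ⟨j, hR.2.1, m', hR.2.2.1, rfl⟩
  have hdisj : St.PairwiseDisjoint (fun R => dcube a L R.1 R.2) := by
    rintro ⟨j, m'⟩ hR ⟨j', m''⟩ hR' hne
    rw [Function.onFun, Set.disjoint_left]
    intro y hy hy'
    rcases lt_trichotomy j j' with h | h | h
    · exact hR'.2.2.2.2 j hR.1.le h y hy' (((mem_dcube_iff hL).1 hy).symm ▸ hR.2.2.2.1)
    · subst h
      exact hne (Prod.ext rfl (((mem_dcube_iff hL).1 hy).symm.trans ((mem_dcube_iff hL).1 hy')))
    · exact hR.2.2.2.2 j' hR'.1.le h y hy (((mem_dcube_iff hL).1 hy').symm ▸ hR'.2.2.2.1)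
  have hgP : Integrable ((tcube a L k m).indicator g) volume := integrable_indicator_cube hg _ _
  have hcmp : ∀ x x' : Euc n, ∀ ε : ℝ, 0 < ε → 2 * ‖x - x'‖ ≤ ε → x' ∉ B →
      ‖Tr K ((tcube a L k m).indicator g) x ε‖ₑ ≤ (1 + Cc) * (A * α) := by
    intro x x' ε hε h2 hx'
    have h1 := hCc _ hgP x x' ε hε h2
    have h3 := enorm_Tr_le_maxSing hε (hI.2 _ hgP x' ε hε)
    calc ‖Tr K ((tcube a L k m).indicator g) x ε‖ₑ
        = ‖Tr K ((tcube a L k m).indicator g) x' ε + (Tr K ((tcube a L k m).indicator g) x ε -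
          Tr K ((tcube a L k m).indicator g) x' ε)‖ₑ := by rw [add_sub_cancel]
      _ ≤ _ := enorm_add_le _ _
      _ ≤ A * α + Cc * (A * α) :=
        add_le_add (h3.trans (hB x' hx').1) (h1.trans (mul_le_mul_right (hB x' hx').2 _))
      _ = _ := by ring
  have hs : 0 < Real.sqrt n := Real.sqrt_pos.2 (by exact_mod_cast hn)
  refine ⟨hfin.toFinset, fun R hR => ?_, by simpa using hdisj, ?_, ?_⟩
  · have := hfin.mem_toFinset.1 hR
    exact ⟨this.1, this.2.1, this.2.2.1⟩
  · have h1 : volume (⋃ R ∈ hfin.toFinset, dcube a L R.1 R.2) ≤ 2 * volume B := by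
      calc volume (⋃ R ∈ hfin.toFinset, dcube a L R.1 R.2)
          ≤ ∑ R ∈ hfin.toFinset, volume (dcube a L R.1 R.2) := measure_biUnion_finset_le _ _
        _ ≤ ∑ R ∈ hfin.toFinset, 2 * volume (dcube a L R.1 R.2 ∩ B) :=
          Finset.sum_le_sum fun R hR => (hfin.mem_toFinset.1 hR).2.2.2.1
        _ = 2 * volume (⋃ R ∈ hfin.toFinset, dcube a L R.1 R.2 ∩ B) := by
          rw [← Finset.mul_sum, measure_biUnion_finset]
          · rw [hfin.coe_toFinset]
            exact hdisj.mono fun R => inter_subset_left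
          · exact fun R _ => (measurableSet_dcube _ _ _ _).inter hBm
        _ ≤ 2 * volume B := by
          gcongr
          exact iUnion₂_subset fun R _ => inter_subset_right
    have h2 : volume (dcube a L k m) ≤
        volume (dcube a L k m \ ⋃ R ∈ hfin.toFinset, dcube a L R.1 R.2) + 2 * volume B :=
      (measure_mono (by rw [sdiff_union_self]; exact subset_union_left)).trans
        ((measure_union_le _ _).trans (add_le_add_right h1 _))
    refine (ENNReal.add_le_add_iff_right (hvt k m)).1 ?_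
    calc volume (dcube a L k m) + volume (dcube a L k m) ≤ _ := add_le_add h2 h2
      _ = 2 * volume (dcube a L k m \ ⋃ R ∈ hfin.toFinset, dcube a L R.1 R.2) + 4 * volume B := by
        ring
      _ ≤ _ := add_le_add_right hBv _
  · intro hkN x hx ε hε
    have hε0 : 0 < ε := lt_of_lt_of_le (by positivity) hε
    have hxk : didx a L k x = m := (mem_dcube_iff hL).1 hx
    have hCle : ((1 + Cc : ℝ≥0∞)) * (A * α) + ENNReal.ofReal (c * (7 * Real.sqrt n) ^ n) * (A * α) =
        (((1 + Cc + Real.toNNReal (c * (7 * Real.sqrt n) ^ n)) * A : ℝ≥0) : ℝ≥0∞) * α := by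
      rw [ENNReal.ofReal]
      push_cast
      ring
    by_cases hex : ∃ i, k ≤ i ∧ i ≤ N ∧ H i (didx a L i x)
    · right
      obtain ⟨hj1, hj2, hj3⟩ := Nat.find_spec hex
      have hmin : ∀ i, k ≤ i → i < Nat.find hex → ¬ H i (didx a L i x) := fun i h1 h2 h3 =>
        Nat.find_min hex h2 ⟨h1, h2.le.trans hj2, h3⟩
      generalize Nat.find hex = j at hj1 hj2 hj3 hmin
      have hkj : k < j := by
        refine lt_of_le_of_ne hj1 ?_
        rintro rfl
        exact hHk (hxk ▸ hj3)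
      have hxj := mem_dcube_didx (a := a) hL j x
      have hsub := dcube_subset_of_mem hL hj1 hx hxj
      refine ⟨(j, didx a L j x), hfin.mem_toFinset.2 ⟨hkj, hj2, hsub, hj3, ?_⟩, hxj, ?_⟩
      · intro i h1 h2 y hy
        rw [didx_eq_of_le hL h2.le ((mem_dcube_iff hL).1 hy)]
        exact hmin i h1 h2
      · obtain ⟨j', rfl⟩ : ∃ j', j = j' + 1 := ⟨j - 1, by omega⟩
        obtain ⟨x', hx'1, hx'2⟩ := hpt _ _ (hmin j' (by omega) (by omega))
        have h1 := norm_sub_le_of_mem_dcube hL (mem_dcube_didx hL j' x) hx'1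
        have h2 : ‖x - x'‖ ≤ 2 * (Real.sqrt n * (L / 2 ^ (j' + 1))) := by
          refine h1.trans (le_of_eq ?_)
          rw [pow_succ]
          field_simp
        have h3 := split_est hn hK hI hgP hL hxj h2 hε0
        rw [indicator_indicator, inter_eq_left.2 (tcube_subset hL hj1 hsub)] at h3
        have h4 := hcmp x x' (max ε (4 * (Real.sqrt n * (L / 2 ^ (j' + 1)))))
          (lt_max_of_lt_left hε0) (le_max_of_le_right (by linarith)) hx'2
        refine h3.trans ?_
        rw [← hCle, add_assoc, add_comm]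
        exact add_le_add_left (add_le_add h4 (mul_le_mul_right (hB x' hx'2).2 _)) _
    · left
      obtain ⟨x', hx'1, hx'2⟩ := hpt N (didx a L N x) fun h => hex ⟨N, hkN, le_rfl, h⟩
      have h1 := norm_sub_le_of_mem_dcube hL (mem_dcube_didx hL N x) hx'1
      refine (hcmp x x' ε hε0 (by linarith) hx'2).trans ?_
      rw [← hCle]
      exact le_self_add

end Pool.Agent.MP_6bb8b9_an.H83
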